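import Pool.Agent.H957.CX.All
import Pool.Agent.H957.CX.PF3

/-!
# A strictly convex plane body, not an ellipse, with the polynomial factor `ζ₁² + ζ₂² - 1`

The known convex bodies of the plane whose Fourier-Laplace transform has a polynomial factor are the
parallelograms (planar prisms) and the ellipses.  We construct another one: it is strictly convex, its
boundary is a real analytic curve, it has a rotational symmetry of order `1897`, it lies between two
concentric discs whose radii differ by the factor `(1 + 10⁻⁶)/(1 - 10⁻⁶)`, and it is not an ellipse;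
its transform is `ζ₁² + ζ₂² - 1` times an entire function.  Equivalently the problem
`Δu + u = 1` in `K`, `u = ∂u/∂n = 0` on `∂K`, has a solution for this convex body.
-/

set_option autoImplicit false

open Set MeasureTheory

namespace Pool.Agent.Results.MP_a61b9a_an.RoundConvexFactor

/-- The Fourier-Laplace transform of the indicator function of `K`. -/
noncomputable def FT (K : Set (Fin 2 → ℝ)) (ζ : Fin 2 → ℂ) : ℂ :=
  ∫ x in K, Complex.exp (-(Complex.I * ∑ i, (x i : ℂ) * ζ i))

/-- **A strictly convex plane body which is not an ellipse and whose Fourier transform is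
`ζ₁² + ζ₂² - 1` times an entire function.** -/
theorem result : ∃ K : Set (Fin 2 → ℝ),
    -- a strictly convex body
    IsCompact K ∧ (interior K).Nonempty ∧ StrictConvex ℝ K ∧
    -- not an affine image of the disc
    (∀ (A : (Fin 2 → ℝ) →ₗ[ℝ] (Fin 2 → ℝ)) (b : Fin 2 → ℝ),
      K ≠ (fun x => A x + b) '' {x | x 0 ^ 2 + x 1 ^ 2 ≤ 1}) ∧
    -- the polynomial factor
    (∃ F : (Fin 2 → ℂ) → ℂ, Differentiable ℂ F ∧
      ∀ ζ, FT K ζ = (ζ 0 ^ 2 + ζ 1 ^ 2 - 1) * F ζ) ∧
    -- close to a disc
    (∃ s : ℝ, 0 < s ∧ {x | x 0 ^ 2 + x 1 ^ 2 ≤ (s * (1 - 1 / 10 ^ 6)) ^ 2} ⊆ K ∧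
      K ⊆ {x | x 0 ^ 2 + x 1 ^ 2 ≤ (s * (1 + 1 / 10 ^ 6)) ^ 2}) ∧
    -- real analytic boundary, rotational symmetry
    ∃ (g : ℂ → ℂ) (R : ℝ), 1 < R ∧ DifferentiableOn ℂ g (Metric.ball 0 R) ∧
      InjOn g (Metric.ball 0 R) ∧
      K = (fun z => ![(g z).re, (g z).im]) '' Metric.closedBall 0 1 ∧
      ∀ ω : ℂ, ω ^ 1897 = 1 →
        (fun z => ω * z) '' (g '' Metric.closedBall 0 1) = g '' Metric.closedBall 0 1 := by
  obtain ⟨ρ, r, f, Om, hD, hS⟩ := Pool.Agent.H957.CX.all
  exact Pool.Agent.H957.CX.PF.core hD hS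

end Pool.Agent.Results.MP_a61b9a_an.RoundConvexFactor
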